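import Pool.Agent.Helper90.MZ.StmtsT

/-!
# Module UDC: models of the context are generated by their points in `Φ`
-/

set_option autoImplicit false

namespace Pool.Agent.Helper90.MZ

open Pool.Agent.Helper90.TS
open FirstOrder Language

theorem st_UDC : ST_UDC := by
  intro L C _ T X hX F hF x
  obtain ⟨u1, -, -, u4⟩ := a_uu1 L C T
  constructor
  · intro hx
    obtain ⟨m, v, hv, hve⟩ := x.2
    obtain ⟨R, hR0, hR1⟩ := a_rho L C T.S T.hM (Fin m) v (x : C) hve
    obtain ⟨B, hB0, hBb, hvB, hBU⟩ := u4 (Fin m) v hv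
    have hRN : ({(x : C)} : Set C).Definable L R := Set.Definable.mono hR0 (Set.empty_subset _)
    have hBN : ({(x : C)} : Set C).Definable L B := Set.Definable.mono hB0 (Set.empty_subset _)
    have hE : ({(x : C)} : Set C).Definable L {w : Fin m ⊕ Unit → C | w (Sum.inr ()) = (x : C)} :=
      umod_single _ rfl
    have hY := (hBN.inter (Set.Definable.exists_of_finite (hRN.inter hE))).inter
      (Set.Definable.forall_of_finite (hRN.compl.union hE))
    have hR2 : ∀ w : Unit → C, Sum.elim v w ∈ R ↔ w = fun _ => (x : C) := by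
      intro w
      have h1 := hR1 1 w
      rw [one_smul, one_smul] at h1
      exact h1
    set W := (B ∩ {w : Fin m → C | ∃ y : Unit → C, Sum.elim w y ∈
      R ∩ {w : Fin m ⊕ Unit → C | w (Sum.inr ()) = (x : C)}}) ∩ {w : Fin m → C | ∀ y : Unit → C,
      Sum.elim w y ∈ Rᶜ ∪ {w : Fin m ⊕ Unit → C | w (Sum.inr ()) = (x : C)}} with hWdef
    have hW : ({(x : C)} : Set C).Definable L W := hY
    have hvW : v ∈ W := by
      refine ⟨⟨hvB, ⟨fun _ => (x : C), (hR2 _).2 rfl, rfl⟩⟩, fun w => ?_⟩
      by_cases hw : Sum.elim v w ∈ R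
      · right
        show w () = (x : C)
        rw [(hR2 w).1 hw]
      · left
        exact hw
    have him : im {y : Fin m → T.V | up y ∈ W} = W := by
      ext z
      constructor
      · rintro ⟨y, hy, rfl⟩
        exact hy
      · intro hz
        exact ⟨fun i => ⟨z i, u1 (hBU z hz.1.1 i)⟩, hz, rfl⟩
    have hOv : X.Ov F {y : Fin m → T.V | up y ∈ W} := by
      refine ⟨?_, ?_⟩
      · rw [hX]
        refine ⟨?_, B, hB0, hBb, ?_, fun y hy i => u1 (hBU y hy i)⟩
        · rw [him]
          refine Set.Definable.mono hW ?_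
          rintro y rfl
          exact x.2
        · rw [him]
          exact fun z hz => hz.1.1
      · intro g hg y hy
        have hg' : g ∈ Fx (AutG L C) ({(x : C)} : Set C) := by
          rintro y rfl
          exact congrArg Subtype.val (hg x hx)
        exact ((st_CINV L C (Fin m) {(x : C)} W hW).1 g hg' (up y)).2 hy
    obtain ⟨w, hw, hwF⟩ := hF.2 m _ hOv ⟨fun i => ⟨v i, u1 (hv i)⟩, hvW⟩
    refine ⟨m, w, fun i => ⟨hwF ⟨i, rfl⟩, hBU _ hw.1.1 i⟩, ?_⟩
    intro g hg
    obtain ⟨⟨hwB, y, hu2, hu3⟩, hu4⟩ := hw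
    have hgw : g • (up w : Fin m → C) = up w := by
      have h0 : g • (up w : Fin m → C) = up (g • w) := rfl
      rw [h0, hg]
    have h2 := ((st_CINV L C (Fin m ⊕ Unit) ∅ R hR0).1 g (by rw [fx_empty]; trivial)
      (Sum.elim (up w) y)).2 hu2
    rw [smul_elim, hgw] at h2
    have h3 : y () = (x : C) := hu3
    apply Subtype.ext
    show g • (x : C) = (x : C)
    rcases hu4 (g • y) with h4 | h4
    · exact absurd h2 h4
    · have h5 : g • y () = (x : C) := h4
      rw [h3] at h5
      exact h5
  · rintro ⟨m, u, hu, hux⟩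
    have hD : X.Ov F ({fun _ : Fin 1 => x} : Set (Fin 1 → T.V)) := by
      refine ⟨ov_finite (Set.finite_singleton _), ?_⟩
      rintro g hg y rfl
      have h1 : g • u = u := by
        funext i
        exact hg _ (hu i).1
      have h2 := hux g h1
      show g • (fun _ : Fin 1 => x) = fun _ : Fin 1 => x
      funext i
      exact h2
    obtain ⟨y, hy, hyF⟩ := hF.2 1 _ hD ⟨_, rfl⟩
    have h3 : y = fun _ : Fin 1 => x := hy
    exact hyF ⟨0, by rw [h3]⟩

end Pool.Agent.Helper90.MZ
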